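import Mathlib

/-!
# Averages over cubes for the action of a commutative group of exponent 2
-/

set_option autoImplicit false

namespace Pool.Agent.W5h11.Cube

open Finset
open scoped Classical

variable {E V : Type*} [Group E] [Fintype E] [Fintype V] [MulAction E V]

/-- iterated averages: `w` is a weight, `R` a relation -/
noncomputable def T (E : Type*) {V : Type*} [Group E] [Fintype E] [Fintype V] [MulAction E V] :
    ℕ → (V → V → ℝ) → (V → V → Prop) → ℝ
  | 0, w, R => ∑ x, ∑ y, if R x y then w x y else 0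
  | (j + 1), w, R => (∑ g : E, T E j w (fun x y => R x y ∧ R x (g • y))) / Fintype.card E

omit [Fintype V] in
theorem card_pos' : (0 : ℝ) < Fintype.card E := by
  have : 0 < Fintype.card E := Fintype.card_pos
  exact_mod_cast this

theorem T_nonneg (j : ℕ) (w : V → V → ℝ) (hw : ∀ x y, 0 ≤ w x y) (R : V → V → Prop) :
    0 ≤ T E j w R := by
  induction j generalizing R with
  | zero =>
    refine sum_nonneg fun x _ => sum_nonneg fun y _ => ?_
    split_ifs
    · exact hw x y
    · exact le_rfl
  | succ j ih =>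
    exact div_nonneg (sum_nonneg fun g _ => ih _) (by positivity)

theorem T_mono (j : ℕ) (w : V → V → ℝ) (hw : ∀ x y, 0 ≤ w x y) {R R' : V → V → Prop}
    (h : ∀ x y, R x y → R' x y) : T E j w R ≤ T E j w R' := by
  induction j generalizing R R' with
  | zero =>
    refine sum_le_sum fun x _ => sum_le_sum fun y _ => ?_
    split_ifs with h1 h2
    · exact le_rfl
    · exact absurd (h x y h1) h2
    · exact hw x y
    · exact le_rfl
  | succ j ih =>
    refine div_le_div_of_nonneg_right (sum_le_sum fun g _ => ih fun x y hxy => ?_) (by positivity)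
    exact ⟨h _ _ hxy.1, h _ _ hxy.2⟩

/-- monotonicity in the weight, on the relation -/
theorem T_mono_w (j : ℕ) (w w' : V → V → ℝ) {R : V → V → Prop}
    (h : ∀ x y, R x y → w x y ≤ w' x y) : T E j w R ≤ T E j w' R := by
  induction j generalizing R with
  | zero =>
    refine sum_le_sum fun x _ => sum_le_sum fun y _ => ?_
    split_ifs with h1
    · exact h x y h1
    · exact le_rfl
  | succ j ih =>
    exact div_le_div_of_nonneg_right (sum_le_sum fun g _ => ih fun x y hxy => h x y hxy.1)
      (by positivity)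

theorem T_sum {ι : Type*} (s : Finset ι) (j : ℕ) (w : ι → V → V → ℝ) (R : V → V → Prop) :
    T E j (fun x y => ∑ i ∈ s, w i x y) R = ∑ i ∈ s, T E j (w i) R := by
  induction j generalizing R with
  | zero =>
    simp only [T]
    rw [sum_comm (s := s)]
    refine sum_congr rfl fun x _ => ?_
    rw [sum_comm (s := s)]
    refine sum_congr rfl fun y _ => ?_
    split_ifs
    · rfl
    · simp
  | succ j ih =>
    simp only [T, ih]
    rw [← sum_div, sum_comm]

theorem T_add (j : ℕ) (w w' : V → V → ℝ) (R : V → V → Prop) :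
    T E j (fun x y => w x y + w' x y) R = T E j w R + T E j w' R := by
  have := T_sum (E := E) (univ : Finset Bool) j (fun b => if b then w else w') R
  simpa using this

theorem T_mul (j : ℕ) (c : ℝ) (w : V → V → ℝ) (R : V → V → Prop) :
    T E j (fun x y => c * w x y) R = c * T E j w R := by
  induction j generalizing R with
  | zero =>
    simp only [T]
    rw [mul_sum]
    refine sum_congr rfl fun x _ => ?_
    rw [mul_sum]
    refine sum_congr rfl fun y _ => ?_
    split_ifs
    · rfl
    · simp
  | succ j ih =>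
    simp only [T, ih]
    rw [← mul_sum, mul_div_assoc]

/-- the restriction to a set of pairs is at most the restriction of the weight -/
theorem T_and_le (j : ℕ) (w : V → V → ℝ) (hw : ∀ x y, 0 ≤ w x y) (R D : V → V → Prop) :
    T E j w (fun x y => R x y ∧ D x y) ≤ T E j (fun x y => if D x y then w x y else 0) R := by
  induction j generalizing R with
  | zero =>
    refine sum_le_sum fun x _ => sum_le_sum fun y _ => ?_
    by_cases h1 : R x y <;> by_cases h2 : D x y <;> simp [h1, h2]
  | succ j ih =>
    refine div_le_div_of_nonneg_right (sum_le_sum fun g _ => ?_) (by positivity)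
    refine le_trans ?_ (ih _)
    refine T_mono _ _ hw fun x y hxy => ⟨⟨hxy.1.1, hxy.2.1⟩, hxy.1.2⟩

/-- the converse for a set of pairs which is invariant -/
theorem T_le_and (j : ℕ) (w : V → V → ℝ) (hw : ∀ x y, 0 ≤ w x y) (R D : V → V → Prop)
    (hD : ∀ (g : E) x y, D x y → D x (g • y)) :
    T E j (fun x y => if D x y then w x y else 0) R ≤ T E j w (fun x y => R x y ∧ D x y) := by
  induction j generalizing R with
  | zero =>
    refine sum_le_sum fun x _ => sum_le_sum fun y _ => ?_
    by_cases h1 : R x y <;> by_cases h2 : D x y <;> simp [h1, h2]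
  | succ j ih =>
    refine div_le_div_of_nonneg_right (sum_le_sum fun g _ => ?_) (by positivity)
    refine (ih _).trans ?_
    exact T_mono _ _ hw fun x y hxy => ⟨⟨hxy.1.1, hxy.2⟩, hxy.1.2, hD g x y hxy.2⟩

/-! ### The lower bound -/

omit [Fintype E] in
theorem sum_smul (g : E) (f : V → ℝ) : ∑ y, f (g • y) = ∑ y, f y :=
  Equiv.sum_comp (MulAction.toPerm g) f

theorem sq_avg_le (μ : V → ℝ) (hμ : ∀ x, 0 ≤ μ x) (hμ1 : ∑ x, μ x = 1)
    (hinv : ∀ (g : E) x, μ (g • x) = μ x) (G : V → ℝ) :
    (∑ y, μ y * G y) ^ 2 ≤ (∑ g : E, ∑ y, μ y * (G y * G (g • y))) / Fintype.card E := by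
  have hc := card_pos' (E := E)
  set P : V → ℝ := fun y => (∑ g : E, G (g • y)) / Fintype.card E with hP
  have hPinv : ∀ (h : E) y, P (h • y) = P y := by
    intro h y
    simp only [hP]
    congr 1
    simp only [← mul_smul]
    exact Equiv.sum_comp (Equiv.mulRight h) fun g => G (g • y)
  -- averaging
  have havg : ∀ (Q : V → ℝ), (∀ (h : E) y, Q (h • y) = Q y) →
      ∑ y, μ y * (G y * Q y) = ∑ y, μ y * (P y * Q y) := by
    intro Q hQ
    have h1 : ∀ h : E, ∑ y, μ y * (G y * Q y) = ∑ y, μ y * (G (h • y) * Q y) := by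
      intro h
      rw [← sum_smul h]
      refine sum_congr rfl fun y _ => ?_
      rw [hinv, hQ]
    have h2 : ∑ y, μ y * (P y * Q y) =
        (∑ h : E, ∑ y, μ y * (G (h • y) * Q y)) / Fintype.card E := by
      rw [sum_comm, sum_div]
      refine sum_congr rfl fun y _ => ?_
      simp only [hP]
      rw [← mul_sum, ← sum_mul]
      ring
    rw [h2, sum_congr rfl fun h _ => (h1 h).symm, sum_const, card_univ, nsmul_eq_mul]
    field_simp
  have h3 : (∑ g : E, ∑ y, μ y * (G y * G (g • y))) / Fintype.card E =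
      ∑ y, μ y * (P y * P y) := by
    rw [← havg P hPinv, sum_comm, sum_div]
    refine sum_congr rfl fun y _ => ?_
    simp only [hP]
    rw [← mul_sum, ← mul_sum]
    ring
  have h4 : ∑ y, μ y * G y = ∑ y, μ y * P y := by
    have := havg (fun _ => 1) fun _ _ => rfl
    simpa using this
  rw [h3, h4]
  have h6 : (∑ y, μ y * P y) ^ 2 ≤ (∑ y, μ y) * ∑ y, μ y * (P y * P y) := by
    have := sum_sq_le_sum_mul_sum_of_sq_le_mul (univ : Finset V)
      (r := fun y => μ y * P y) (f := μ) (g := fun y => μ y * (P y * P y))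
      (fun y _ => hμ y) (fun y _ => mul_nonneg (hμ y) (mul_self_nonneg _))
      (fun y _ => le_of_eq (by ring))
    exact this
  rwa [hμ1, one_mul] at h6

theorem sq_avg_le' (μ : V → ℝ) (hμ : ∀ x, 0 ≤ μ x) (hμ1 : ∑ x, μ x = 1) (G : V → ℝ) :
    (∑ y, μ y * G y) ^ 2 ≤ ∑ y, μ y * G y ^ 2 := by
  have h6 : (∑ y, μ y * G y) ^ 2 ≤ (∑ y, μ y) * ∑ y, μ y * G y ^ 2 :=
    sum_sq_le_sum_mul_sum_of_sq_le_mul (univ : Finset V)
      (r := fun y => μ y * G y) (f := μ) (g := fun y => μ y * G y ^ 2)
      (fun y _ => hμ y) (fun y _ => mul_nonneg (hμ y) (sq_nonneg _)) (fun y _ => le_of_eq (by ring))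
  rwa [hμ1, one_mul] at h6

theorem T_lower (μ : V → ℝ) (hμ : ∀ x, 0 ≤ μ x)
    (hμ1 : ∑ x, μ x = 1) (hinv : ∀ (g : E) x, μ (g • x) = μ x) (v : V → V → ℝ)
    (hvinv : ∀ (g : E) x y, v x (g • y) = v x y) (j : ℕ) (k : ℕ)
    (R : V → V → Prop) :
    (T E j (fun x y => μ x * μ y * v x y ^ k) R) ^ 2 ≤
      T E (j + 1) (fun x y => μ x * μ y * v x y ^ (2 * k)) R := by
  have hc := card_pos' (E := E)
  induction j generalizing R with
  | zero =>
    simp only [T]
    set G : V → V → ℝ := fun x y => if R x y then v x y ^ k else 0 with hG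
    have h1 : ∑ x, ∑ y, (if R x y then μ x * μ y * v x y ^ k else 0) =
        ∑ x, μ x * ∑ y, μ y * G x y := by
      refine sum_congr rfl fun x _ => ?_
      rw [mul_sum]
      refine sum_congr rfl fun y _ => ?_
      simp only [hG]
      split_ifs <;> ring
    have h2 : (∑ g : E, ∑ x, ∑ y,
        (if R x y ∧ R x (g • y) then μ x * μ y * v x y ^ (2 * k) else 0)) / Fintype.card E =
        ∑ x, μ x * ((∑ g : E, ∑ y, μ y * (G x y * G x (g • y))) / Fintype.card E) := by
      rw [sum_comm, sum_div]
      refine sum_congr rfl fun x _ => ?_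
      rw [← mul_div_assoc, mul_sum]
      congr 1
      refine sum_congr rfl fun g _ => ?_
      rw [mul_sum]
      refine sum_congr rfl fun y _ => ?_
      simp only [hG, hvinv]
      by_cases h1 : R x y <;> by_cases h2 : R x (g • y) <;> simp [h1, h2]
      ring
    rw [h1, h2]
    refine (sq_avg_le' μ hμ hμ1 _).trans (sum_le_sum fun x _ => ?_)
    exact mul_le_mul_of_nonneg_left (sq_avg_le μ hμ hμ1 hinv _) (hμ x)
  | succ j ih =>
    rw [T, T]
    have h1 : ((∑ g : E, T E j (fun x y => μ x * μ y * v x y ^ k)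
        (fun x y => R x y ∧ R x (g • y))) / Fintype.card E) ^ 2 ≤
        (∑ g : E, (T E j (fun x y => μ x * μ y * v x y ^ k)
          (fun x y => R x y ∧ R x (g • y))) ^ 2) / Fintype.card E := by
      have := sq_sum_le_card_mul_sum_sq (s := (univ : Finset E))
        (f := fun g => T E j (fun x y => μ x * μ y * v x y ^ k) (fun x y => R x y ∧ R x (g • y)))
      rw [card_univ] at this
      rw [div_pow, div_le_div_iff₀ (by positivity) hc]
      nlinarith
    exact h1.trans (div_le_div_of_nonneg_right (sum_le_sum fun g _ => ih _) hc.le)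

end Pool.Agent.W5h11.Cube
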