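import Pool.Agent.W5h11.Cube.Main

/-!
# The number of edges of a graph with a group of automorphisms of exponent 2
-/

set_option autoImplicit false

namespace Pool.Agent.W5h11.Cube

open Finset
open scoped Classical

variable {E V : Type*} [Group E] [Fintype E] [Fintype V] [MulAction E V]

omit [Fintype E] in
theorem comm_of_sq (h2 : ∀ g : E, g * g = 1) (a b : E) : a * b = b * a := by
  have h3 : ∀ h : E, h⁻¹ = h := fun h => inv_eq_of_mul_eq_one_left (h2 h)
  have := h3 (a * b)
  rw [mul_inv_rev, h3, h3] at this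
  exact this.symm

theorem card_pairs_eq (X : SimpleGraph V) :
    (2 * X.edgeSet.ncard : ℝ) = ∑ x, ∑ y, ind (X.Adj x y) := by
  have h1 := X.sum_degrees_eq_twice_card_edges
  have h3 : X.edgeSet.ncard = X.edgeFinset.card := by
    rw [← SimpleGraph.coe_edgeFinset, Set.ncard_coe_finset]
  rw [h3]
  have h4 : ∀ x, (X.degree x : ℝ) = ∑ y, ind (X.Adj x y) := by
    intro x
    rw [← SimpleGraph.card_neighborFinset_eq_degree, SimpleGraph.neighborFinset_eq_filter,
      card_filter]
    push_cast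
    refine sum_congr rfl fun y _ => ?_
    unfold ind
    congr!
  simp_rw [← h4]
  exact_mod_cast h1.symm

theorem edges_le (h2 : ∀ g : E, g * g = 1) (i : ℕ) (X : SimpleGraph V)
    (hinv : ∀ (g : E) x y, X.Adj x y → X.Adj (g • x) (g • y))
    (hN : NoBig (2 ^ (i + 1)) X.Adj) :
    (X.edgeSet.ncard : ℝ) ≤ (2 ^ (i + 1) + 1) *
      (Fintype.card V : ℝ) ^ (2 - 2 / (2 : ℝ) ^ (i + 1)) *
      (Nat.card (MulAction.orbitRel.Quotient E V) : ℝ) ^ (2 / (2 : ℝ) ^ (i + 1)) := by
  have hcomm := comm_of_sq h2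
  rcases isEmpty_or_nonempty V with hV | hV
  · have : X.edgeSet = ∅ := by
      ext e
      induction e using Sym2.ind with
      | _ x y => exact isEmptyElim x
    rw [this]
    simp only [Set.ncard_empty, Nat.cast_zero]
    positivity
  set m : ℕ := 2 ^ (i + 1) with hm
  have hm0 : 0 < m := by positivity
  have hm0' : m ≠ 0 := hm0.ne'
  set s : ℝ := 2 ^ (i + 1) with hs
  have hms : (m : ℝ) = s := by rw [hm, hs]; push_cast; rfl
  have hs2 : 2 ≤ s := by
    rw [hs, pow_succ]
    have : (1 : ℝ) ≤ 2 ^ i := one_le_pow₀ (by norm_num)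
    linarith
  set n : ℕ := Fintype.card V with hn
  set t : ℕ := Nat.card (MulAction.orbitRel.Quotient E V) with ht
  have hn0 : 0 < n := Fintype.card_pos
  have ht0 : 0 < t := by
    rw [ht]
    have : Nonempty (MulAction.orbitRel.Quotient E V) :=
      ⟨Quotient.mk'' (Classical.arbitrary V)⟩
    exact Nat.card_pos
  have htn : t ≤ n := by
    rw [ht, hn, ← Nat.card_eq_fintype_card (α := V)]
    exact Nat.card_le_card_of_surjective
      (fun x : V => (Quotient.mk'' x : MulAction.orbitRel.Quotient E V)) Quotient.mk''_surjective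
  have hnR : (0 : ℝ) < n := by exact_mod_cast hn0
  have htR : (0 : ℝ) < t := by exact_mod_cast ht0
  -- the roots
  set a : V → ℝ := fun x => p E x ^ ((m : ℝ)⁻¹) with ha
  have ha0 : ∀ x, 0 < a x := fun x => Real.rpow_pos_of_pos (p_pos x) _
  have hap : ∀ x, a x ^ m = p E x := fun x =>
    Real.rpow_inv_natCast_pow (p_pos x).le hm0'
  have hainv : ∀ (g : E) x, a (g • x) = a x := fun g x => by
    simp only [ha, p_smul hcomm]
  set Z : ℝ := ∑ x, a x with hZ
  have hZ0 : 0 < Z := sum_pos (fun x _ => ha0 x) univ_nonempty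
  have hZm : Z ^ m ≤ (n : ℝ) ^ (m - 1) * t := by
    have h3 := pow_sum_div_card_le_sum_pow (s := (univ : Finset V)) (f := a) (fun x _ => (ha0 x).le)
      (m - 1)
    rw [Nat.sub_add_cancel hm0, card_univ, div_le_iff₀ (by positivity)] at h3
    simp_rw [hap] at h3
    rw [sum_p] at h3
    rw [mul_comm]
    exact h3
  -- comparable pairs
  set R : V → V → Prop := fun x y => X.Adj x y ∧ p E x ≤ s * p E y ∧ p E y ≤ s * p E x with hR
  have hcomp := comparable (E := E) h2 i R (fun g x y h => by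
      refine ⟨hinv g _ _ h.1, ?_⟩
      rw [p_smul hcomm, p_smul hcomm]
      exact h.2) (fun A B hA hB h => hN A B hA hB fun x hx y hy => (h x hx y hy).1)
    (fun x y h => h.2) a ha0 hap hainv
  -- the other pairs
  set S : V → V → Prop := fun x y => X.Adj x y ∧ m * p E x ≤ p E y with hS
  have hsm : (∑ x, ∑ y, ind (S x y)) ≤ n * ((s - 1) * t) := by
    have h1 : ∀ x : V, (∑ y, ind (S x y)) ≤ (s - 1) * t := by
      intro x
      have h3 := small_orbits (E := E) hcomm m hm0 X.Adj hinv hN x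
      have h4 : (∑ y, ind (S x y)) =
          ((univ.filter fun y => X.Adj x y ∧ m * p E x ≤ p E y).card : ℝ) := by
        rw [card_filter]
        push_cast
        refine sum_congr rfl fun y _ => ?_
        simp only [hS, ind]
      rw [h4, ← hms]
      have h5 : ((m - 1 : ℕ) : ℝ) = (m : ℝ) - 1 := by
        rw [Nat.cast_sub hm0]
        simp
      rw [← h5]
      exact_mod_cast h3
    calc (∑ x, ∑ y, ind (S x y)) ≤ ∑ _x : V, (s - 1) * (t : ℝ) :=
          sum_le_sum fun x _ => h1 x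
      _ = n * ((s - 1) * t) := by rw [sum_const, card_univ, nsmul_eq_mul]
  have htot : (2 * X.edgeSet.ncard : ℝ) ≤ (∑ x, ∑ y, ind (R x y)) +
      (∑ x, ∑ y, ind (S x y)) + (∑ x, ∑ y, ind (S x y)) := by
    have h1 : (∑ x, ∑ y, ind (S x y)) =
        ∑ x, ∑ y, ind (S y x) := sum_comm
    rw [card_pairs_eq]
    conv_rhs => rw [add_assoc, add_comm (∑ x, ∑ y, ind (S x y))]
    conv_rhs => rw [add_comm (∑ x, ∑ y, ind (S x y))]
    nth_rewrite 1 [h1]
    rw [← add_assoc, ← sum_add_distrib, ← sum_add_distrib]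
    refine sum_le_sum fun x _ => ?_
    rw [← sum_add_distrib, ← sum_add_distrib]
    refine sum_le_sum fun y _ => ?_
    by_cases hxy : X.Adj x y
    · rw [ind_pos hxy]
      by_cases h3 : R x y
      · rw [ind_pos h3]
        linarith [ind_nonneg (S x y), ind_nonneg (S y x)]
      · by_cases h4 : p E x ≤ s * p E y
        · have h5 : ¬ p E y ≤ s * p E x := fun h => h3 ⟨hxy, h4, h⟩
          have h6 : S x y := ⟨hxy, by rw [hms]; exact (not_le.1 h5).le⟩
          linarith [ind_nonneg (R x y), ind_nonneg (S y x), ind_pos h6]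
        · have h6 : S y x := ⟨hxy.symm, by rw [hms]; exact (not_le.1 h4).le⟩
          linarith [ind_nonneg (R x y), ind_nonneg (S x y), ind_pos h6]
    · rw [ind_neg hxy]
      linarith [ind_nonneg (R x y), ind_nonneg (S x y), ind_nonneg (S y x)]
  -- real powers
  have hZ2 : Z ^ 2 ≤ (n : ℝ) ^ (2 - 2 / s) * (t : ℝ) ^ (2 / s) := by
    have h1 : Z ≤ ((n : ℝ) ^ (m - 1) * t) ^ ((m : ℝ)⁻¹) := by
      rw [Real.le_rpow_inv_iff_of_pos hZ0.le (by positivity) (by exact_mod_cast hm0),
        Real.rpow_natCast]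
      exact hZm
    have h3 : Z ^ 2 ≤ (((n : ℝ) ^ (m - 1) * t) ^ ((m : ℝ)⁻¹)) ^ 2 :=
      pow_le_pow_left₀ hZ0.le h1 2
    refine h3.trans (le_of_eq ?_)
    rw [← Real.rpow_natCast (_ ^ _) 2, ← Real.rpow_mul (by positivity),
      Real.mul_rpow (by positivity) (by positivity), ← Real.rpow_natCast (n : ℝ) (m - 1),
      ← Real.rpow_mul (by positivity), hms]
    congr 2
    · rw [Nat.cast_sub hm0, hms]
      push_cast
      field_simp
    · push_cast
      field_simp
  have hnt : (n : ℝ) * t ≤ (n : ℝ) ^ (2 - 2 / s) * (t : ℝ) ^ (2 / s) := by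
    have h1 : (t : ℝ) = (t : ℝ) ^ (1 - 2 / s) * (t : ℝ) ^ (2 / s) := by
      rw [← Real.rpow_add htR]
      simp
    have h3 : (t : ℝ) ^ (1 - 2 / s) ≤ (n : ℝ) ^ (1 - 2 / s) := by
      refine Real.rpow_le_rpow htR.le (by exact_mod_cast htn) ?_
      rw [sub_nonneg, div_le_one (by linarith)]
      exact hs2
    have h4 : (n : ℝ) * (n : ℝ) ^ (1 - 2 / s) = (n : ℝ) ^ (2 - 2 / s) := by
      nth_rewrite 1 [← Real.rpow_one (n : ℝ)]
      rw [← Real.rpow_add hnR]
      congr 1
      ring
    rw [← h4, mul_assoc]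
    refine mul_le_mul_of_nonneg_left ?_ hnR.le
    nth_rewrite 1 [h1]
    exact mul_le_mul_of_nonneg_right h3 (by positivity)
  set B : ℝ := (n : ℝ) ^ (2 - 2 / s) * (t : ℝ) ^ (2 / s) with hB
  have hfin : (2 * X.edgeSet.ncard : ℝ) ≤ 2 * ((s + 1) * B) := by
    have h1 : 4 * Z ^ 2 ≤ 4 * B := by linarith
    have h3 : n * ((s - 1) * t) ≤ (s - 1) * B := by
      have := mul_le_mul_of_nonneg_left hnt (show 0 ≤ s - 1 by linarith)
      linarith
    linarith
  rw [mul_assoc]
  linarith

end Pool.Agent.W5h11.Cube
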