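import Pool.Agent.W5h11.Cube.Upper

/-!
# Graphs with a group of automorphisms of exponent 2
-/

set_option autoImplicit false

namespace Pool.Agent.W5h11.Cube

open Finset
open scoped Classical

variable {E V : Type*} [Group E] [Fintype E] [Fintype V] [MulAction E V]

/-- the indicator of a proposition -/
noncomputable def ind (q : Prop) : ℝ := if q then 1 else 0

theorem ind_pos {q : Prop} (h : q) : ind q = 1 := if_pos h

theorem ind_neg {q : Prop} (h : ¬ q) : ind q = 0 := if_neg h

theorem ind_nonneg (q : Prop) : 0 ≤ ind q := by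
  unfold ind
  split_ifs <;> norm_num

omit [Fintype V] in
theorem p_pos (x : V) : 0 < p E x := by
  unfold p
  refine div_pos ?_ card_pos'
  have : 0 < (univ.filter fun g : E => g • x = x).card :=
    card_pos.2 ⟨1, mem_filter.2 ⟨mem_univ _, one_smul _ _⟩⟩
  exact_mod_cast this

omit [Fintype V] in
theorem p_smul (hcomm : ∀ a b : E, a * b = b * a) (g : E) (x : V) : p E (g • x) = p E x := by
  unfold p
  congr 3
  ext k
  simp only [mem_filter, mem_univ, true_and]
  rw [← mul_smul, hcomm, mul_smul]
  exact smul_left_cancel_iff g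

/-- Burnside's lemma -/
theorem sum_p : ∑ x : V, p E x = Nat.card (MulAction.orbitRel.Quotient E V) := by
  have h1 := MulAction.sum_card_fixedBy_eq_card_orbits_mul_card_group E V
  have h2 : ∑ x : V, (univ.filter fun g : E => g • x = x).card =
      Fintype.card (MulAction.orbitRel.Quotient E V) * Fintype.card E := by
    unfold MulAction.orbitRel.Quotient
    rw [← h1]
    simp only [card_filter, Fintype.card_subtype]
    rw [sum_comm]
    refine sum_congr rfl fun g _ => ?_
    simp only [MulAction.mem_fixedBy]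
  unfold p
  rw [← sum_div, div_eq_iff (card_pos' (E := E)).ne', Nat.card_eq_fintype_card]
  exact_mod_cast h2

/-- the pairs of adjacent vertices whose orbits have almost the same size -/
theorem comparable (h2 : ∀ g : E, g * g = 1) (i : ℕ) (R : V → V → Prop)
    (hinv : ∀ (g : E) x y, R x y → R (g • x) (g • y)) (hN : NoBig (2 ^ (i + 1)) R)
    (hR : ∀ x y, R x y → p E x ≤ 2 ^ (i + 1) * p E y ∧ p E y ≤ 2 ^ (i + 1) * p E x)
    (a : V → ℝ) (ha : ∀ x, 0 < a x) (hap : ∀ x, a x ^ (2 ^ (i + 1)) = p E x)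
    (hainv : ∀ (g : E) x, a (g • x) = a x) :
    (∑ x, ∑ y, ind (R x y)) ≤ 4 * (∑ x, a x) ^ 2 := by
  have hcomm : ∀ a b : E, a * b = b * a := by
    intro a b
    have h3 : ∀ h : E, h⁻¹ = h := fun h => inv_eq_of_mul_eq_one_left (h2 h)
    have := h3 (a * b)
    rw [mul_inv_rev, h3, h3] at this
    exact this.symm
  rcases isEmpty_or_nonempty V with hV | hV
  · simp
  set Z : ℝ := ∑ x, a x with hZ
  have hZ0 : 0 < Z := sum_pos (fun x _ => ha x) univ_nonempty
  set μ : V → ℝ := fun x => a x / Z with hμ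
  set v : V → V → ℝ := fun x y => 1 / (a x * a y) with hv
  have hμ0 : ∀ x, 0 ≤ μ x := fun x => (div_pos (ha x) hZ0).le
  have hμ1 : ∑ x, μ x = 1 := by
    simp only [hμ]
    rw [← sum_div]
    exact div_self hZ0.ne'
  have hv0 : ∀ x y, 0 < v x y := fun x y => by
    have := ha x; have := ha y
    simp only [hv]; positivity
  have hμinv : ∀ (g : E) x, μ (g • x) = μ x := fun g x => by simp only [hμ, hainv]
  have hvinv : ∀ (g : E) x y, v x (g • y) = v x y := fun g x y => by simp only [hv, hainv]
  set A : ℕ → ℝ := fun j => T E j (fun x y => μ x * μ y * v x y ^ (2 ^ j)) R with hA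
  have hA0 : ∀ j, 0 ≤ A j := fun j => T_nonneg _ _ (fun x y => by
    have := hμ0 x; have := hμ0 y; have := (hv0 x y).le; positivity) _
  have hlow : ∀ j, A j ^ 2 ≤ A (j + 1) := by
    intro j
    have := T_lower (E := E) μ hμ0 hμ1 hμinv v hvinv j (2 ^ j) R
    simp only [hA]
    rwa [pow_succ' 2 j]
  have hchain : ∀ j, A 0 ^ (2 ^ j) ≤ A j := by
    intro j
    induction j with
    | zero => simp
    | succ j ih =>
      rw [pow_succ, pow_mul]
      exact (pow_le_pow_left₀ (pow_nonneg (hA0 0) _) ih 2).trans (hlow j)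
  set s : ℝ := 2 ^ (i + 1) with hs
  have hs2 : 2 ≤ s := by
    rw [hs, pow_succ]
    have : (1 : ℝ) ≤ 2 ^ i := one_le_pow₀ (by norm_num)
    linarith
  -- the upper bound
  have hup := T_upper (E := E) h2 hcomm (i + 1) 0 {1} R R (fun _ _ h => h)
    ⟨mem_singleton_self _, fun g hg h hh => by
        rw [mem_singleton] at hg hh ⊢
        rw [hg, hh, one_mul], hinv, fun x y hxy h hh => by
        rw [mem_singleton] at hh
        rwa [hh, one_smul], fun x y _ => by simp [orb], fun x y _ => by simp [orb]⟩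
    (by rwa [zero_add]) (fun x y => μ x * μ y * v x y ^ (2 ^ (i + 1)))
    (fun x y => by have := hμ0 x; have := hμ0 y; have := (hv0 x y).le; positivity)
  set K : ℝ := (s + 1) / √s with hK
  have hs0 : 0 < √s := Real.sqrt_pos.2 (by linarith)
  have hK0 : 0 < K := div_pos (by linarith) hs0
  have hpt : ∀ x y, R x y → (2 : ℝ) ^ 0 * ((p E x + p E y) * (μ x * μ y * v x y ^ (2 ^ (i + 1)))) ≤
      K * (μ x * μ y * v x y ^ (2 ^ i)) := by
    intro x y hxy
    obtain ⟨h3, h4⟩ := hR x y hxy
    have hpx := p_pos (E := E) x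
    have hpy := p_pos (E := E) y
    have h5 : v x y ^ (2 ^ (i + 1)) = 1 / (p E x * p E y) := by
      simp only [hv]
      rw [one_div, inv_pow, mul_pow, hap, hap, one_div]
    set W : ℝ := v x y ^ (2 ^ i) with hW
    have hW0 : 0 < W := pow_pos (hv0 x y) _
    have h6 : v x y ^ (2 ^ (i + 1)) = W * W := by
      rw [hW, ← pow_add, ← two_mul, ← pow_succ']
    have h7 : W * (p E x + p E y) ≤ K := by
      refine le_of_sq_le_sq ?_ hK0.le
      have h8 : W * W * (p E x * p E y) = 1 := by
        rw [← h6, h5, one_div_mul_cancel (by positivity)]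
      rw [hK, div_pow, Real.sq_sqrt (by linarith), le_div_iff₀ (by linarith)]
      have h9 : s * (p E x + p E y) ^ 2 ≤ (s + 1) ^ 2 * (p E x * p E y) := by
        nlinarith [mul_nonneg (sub_nonneg.2 h3) (sub_nonneg.2 h4)]
      calc (W * (p E x + p E y)) ^ 2 * s = W * W * (s * (p E x + p E y) ^ 2) := by ring
        _ ≤ W * W * ((s + 1) ^ 2 * (p E x * p E y)) :=
            mul_le_mul_of_nonneg_left h9 (by positivity)
        _ = (s + 1) ^ 2 := by rw [← mul_assoc, mul_comm (W * W), mul_assoc, h8, mul_one]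
    rw [h6, pow_zero, one_mul]
    have h10 : 0 ≤ μ x * μ y * W := by
      have := hμ0 x; have := hμ0 y; positivity
    calc (p E x + p E y) * (μ x * μ y * (W * W)) = (μ x * μ y * W) * (W * (p E x + p E y)) := by
          ring
      _ ≤ (μ x * μ y * W) * K := mul_le_mul_of_nonneg_left h7 h10
      _ = K * (μ x * μ y * W) := by ring
  have hup2 : A (i + 1) ≤ (s - 1) * (K * A i) := by
    refine hup.trans ?_
    refine mul_le_mul_of_nonneg_left ?_ (by linarith)
    rw [Nat.add_sub_cancel]
    refine (T_mono_w (E := E) i _ _ hpt).trans (le_of_eq ?_)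
    rw [T_mul]
  have hAi : A i ≤ (s - 1) * K := by
    rcases (hA0 i).eq_or_lt with h | h
    · rw [← h]
      exact mul_nonneg (by linarith) hK0.le
    · have h3 := (hlow i).trans hup2
      rw [sq] at h3
      have h4 : A i * A i ≤ (s - 1) * K * A i := by linarith
      exact le_of_mul_le_mul_right h4 h
  have hM : (s - 1) * K ≤ 4 ^ (2 ^ i) := by
    have h3 : ((s - 1) * K) ^ 2 ≤ s ^ 3 := by
      rw [hK, mul_pow, div_pow, Real.sq_sqrt (by linarith), ← mul_div_assoc,
        div_le_iff₀ (by linarith)]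
      nlinarith [sq_nonneg s, mul_self_nonneg (s ^ 2 - 1)]
    have h4 : s ^ 3 ≤ ((4 : ℝ) ^ (2 ^ i)) ^ 2 := by
      rw [hs]
      have : (3 * (i + 1) : ℕ) ≤ 2 * (2 * 2 ^ i) := by
        have : i + 1 ≤ 2 ^ i := Nat.lt_two_pow_self
        omega
      calc ((2 : ℝ) ^ (i + 1)) ^ 3 = 2 ^ (3 * (i + 1)) := by rw [← pow_mul]; ring
        _ ≤ 2 ^ (2 * (2 * 2 ^ i)) := pow_le_pow_right₀ (by norm_num) this
        _ = ((4 : ℝ) ^ (2 ^ i)) ^ 2 := by
            rw [show (4 : ℝ) = 2 ^ 2 by norm_num, ← pow_mul, ← pow_mul]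
            congr 1
            ring
    exact le_of_sq_le_sq (h3.trans h4) (by positivity)
  have h0 : A 0 ≤ 4 := by
    have h3 := ((hchain i).trans hAi).trans hM
    by_contra hcon
    push Not at hcon
    have : (4 : ℝ) ^ (2 ^ i) < A 0 ^ (2 ^ i) := pow_lt_pow_left₀ hcon (by norm_num) (by positivity)
    linarith
  have hA00 : A 0 = (∑ x, ∑ y, ind (R x y)) / Z ^ 2 := by
    simp only [hA, T, ind]
    rw [sum_div]
    refine sum_congr rfl fun x _ => ?_
    rw [sum_div]
    refine sum_congr rfl fun y _ => ?_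
    split_ifs
    · simp only [hμ, hv]
      have := (ha x).ne'
      have := (ha y).ne'
      have := hZ0.ne'
      rw [pow_zero, pow_one]
      field_simp
    · simp
  rw [hA00, div_le_iff₀ (by positivity)] at h0
  exact h0

/-- the neighbours whose orbits are much smaller: at most `m - 1` in each orbit -/
theorem small_orbits (hcomm : ∀ a b : E, a * b = b * a) (m : ℕ) (hm : 0 < m)
    (R : V → V → Prop) (hinv : ∀ (g : E) x y, R x y → R (g • x) (g • y)) (hN : NoBig m R)
    (x : V) : (univ.filter fun y => R x y ∧ m * p E x ≤ p E y).card ≤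
      (m - 1) * Nat.card (MulAction.orbitRel.Quotient E V) := by
  rw [Nat.card_eq_fintype_card, ← card_univ]
  refine card_le_mul_card_image_of_maps_to
    (f := fun y => (Quotient.mk'' y : MulAction.orbitRel.Quotient E V)) (fun _ _ => mem_univ _)
    _ fun ω _ => ?_
  by_contra hcon
  push Not at hcon
  set B := (univ.filter fun y => R x y ∧ m * p E x ≤ p E y).filter
    fun y => (Quotient.mk'' y : MulAction.orbitRel.Quotient E V) = ω with hB
  have hBm : m ≤ B.card := by omega
  obtain ⟨B', hB', hB'c⟩ := exists_subset_card_eq hBm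
  obtain ⟨y₀, hy₀⟩ : B'.Nonempty := card_pos.1 (by omega)
  have hmem : ∀ y ∈ B', R x y ∧ m * p E x ≤ p E y ∧ ∃ k : E, k • y₀ = y := by
    intro y hy
    have h1 := mem_filter.1 (hB' hy)
    have h0 := mem_filter.1 (hB' hy₀)
    refine ⟨(mem_filter.1 h1.1).2.1, (mem_filter.1 h1.1).2.2, ?_⟩
    have h3 : (Quotient.mk'' y : MulAction.orbitRel.Quotient E V) = Quotient.mk'' y₀ := by
      rw [h1.2, h0.2]
    rw [Quotient.eq''] at h3
    exact h3
  set A : Finset V := (univ.filter fun g : E => g • y₀ = y₀).image fun g => g • x with hA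
  have hAc : m ≤ A.card := by
    have h1 := card_le_mul_card_image_of_maps_to (s := univ.filter fun g : E => g • y₀ = y₀)
      (t := A) (f := fun g => g • x) (fun g hg => mem_image_of_mem _ hg)
      ((univ.filter fun g : E => g • x = x).card) (fun z _ => by
        refine le_trans (card_le_card fun g hg => ?_) (card_smul_eq_le x z)
        simp only [mem_filter, mem_univ, true_and] at hg ⊢
        exact hg.2)
    have h3 := (hmem y₀ hy₀).2.1
    have hpx := p_pos (E := E) x
    have h4 : p E y₀ ≤ A.card * p E x := by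
      unfold p
      rw [← mul_div_assoc]
      refine div_le_div_of_nonneg_right ?_ (card_pos' (E := E)).le
      have : ((univ.filter fun g : E => g • y₀ = y₀).card : ℝ) ≤
        (univ.filter fun g : E => g • x = x).card * A.card := by exact_mod_cast h1
      linarith
    have h5 : (m : ℝ) * p E x ≤ A.card * p E x := h3.trans h4
    exact_mod_cast le_of_mul_le_mul_right h5 hpx
  obtain ⟨A', hA', hA'c⟩ := exists_subset_card_eq hAc
  refine hN A' B' hA'c hB'c fun z hz y hy => ?_
  obtain ⟨g, hg, rfl⟩ := mem_image.1 (hA' hz)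
  have hg' := (mem_filter.1 hg).2
  obtain ⟨h1, _, k, rfl⟩ := hmem y hy
  have h3 := hinv g _ _ h1
  rwa [← mul_smul, hcomm, mul_smul, hg'] at h3

end Pool.Agent.W5h11.Cube
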