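import Pool.Agent.W5h11.Cube.Final
import Pool.Agent.W5h11.NGB.Result

/-!
# Norm graphs of characteristic 2 with few orbits
-/

set_option autoImplicit false

namespace Pool.Agent.W5h11.Cube

open Finset
open scoped Classical

section fib

variable (F K : Type) [Field F] [Fintype F] [Field K] [Fintype K] [Algebra F K]

/-- the number of the elements of given norm -/
theorem fiber_card (hdeg : Module.finrank F K = 2) (c : Fˣ) :
    (univ.filter fun Y : K => Algebra.norm F Y = (c : F)).card = Fintype.card F + 1 := by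
  set f : Kˣ →* Fˣ := Units.map (Algebra.norm F (S := K)) with hf
  have hsurj : Function.Surjective f := FiniteField.unitsMap_norm_surjective F K
  have hfib : ∀ d : Fˣ, (univ.filter fun y : Kˣ => f y = d).card =
      (univ.filter fun y : Kˣ => f y = c).card := fun d =>
    MonoidHom.card_fiber_eq_of_mem_range f (hsurj d) (hsurj c)
  have hq : 2 ≤ Fintype.card F := Fintype.one_lt_card
  have hK : Fintype.card K = Fintype.card F ^ 2 := by
    rw [Module.card_eq_pow_finrank (K := F), hdeg]
  have hsum : Fintype.card Kˣ = ∑ d : Fˣ, (univ.filter fun y : Kˣ => f y = d).card := by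
    rw [← card_univ]
    exact card_eq_sum_card_fiberwise fun y _ => mem_univ _
  rw [sum_congr rfl fun d _ => hfib d, sum_const, card_univ, Fintype.card_units,
    Fintype.card_units, hK, smul_eq_mul] at hsum
  have h1 : (univ.filter fun y : Kˣ => f y = c).card = Fintype.card F + 1 := by
    obtain ⟨r, hr⟩ : ∃ r, Fintype.card F = r + 2 := ⟨Fintype.card F - 2, by omega⟩
    rw [hr] at hsum ⊢
    have h3 : (r + 2) ^ 2 - 1 = (r + 2 - 1) * (r + 2 + 1) := by
      have : (r + 2) ^ 2 = (r + 1) * (r + 3) + 1 := by ring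
      rw [this, Nat.add_sub_cancel]
      rfl
    rw [h3] at hsum
    exact (Nat.eq_of_mul_eq_mul_left (by omega) hsum).symm
  rw [← h1]
  refine (card_bij (fun (y : Kˣ) _ => (y : K)) ?_ ?_ ?_).symm
  · intro y hy
    simp only [mem_filter, mem_univ, true_and] at hy ⊢
    rw [← hy]
    rfl
  · intro y _ z _ h
    exact Units.ext h
  · intro Y hY
    simp only [mem_filter, mem_univ, true_and] at hY
    have hY0 : Y ≠ 0 := by
      rintro rfl
      rw [Algebra.norm_zero] at hY
      exact c.ne_zero hY.symm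
    refine ⟨Units.mk0 Y hY0, ?_, rfl⟩
    simp only [mem_filter, mem_univ, true_and]
    exact Units.ext hY

/-- the norm graph on the labels in `T` -/
def gr (T : Finset Fˣ) : SimpleGraph (K × T) where
  Adj u v := u ≠ v ∧ Algebra.norm F (u.1 + v.1) = ((u.2 : Fˣ) : F) * ((v.2 : Fˣ) : F)
  symm := ⟨fun u v h => ⟨h.1.symm, by rw [add_comm, h.2, mul_comm]⟩⟩
  loopless := ⟨fun u h => h.1 rfl⟩

theorem gr_free (hdeg : Module.finrank F K = 2) (T : Finset Fˣ) :
    (completeBipartiteGraph (Fin 3) (Fin 3)).Free (gr F K T) := by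
  intro hcon
  have h1 := (Pool.Agent.W5h11.NGB.Result.result F K 3 (by norm_num)
    hdeg).2.2.1
  refine h1 ?_
  refine hcon.trans ⟨⟨⟨fun u => (u.1, (u.2 : Fˣ)), fun {u v} h => ⟨fun h0 => h.1 ?_, h.2⟩⟩,
    fun u v h0 => ?_⟩⟩
  · rw [Prod.ext_iff] at h0
    exact Prod.ext h0.1 (Subtype.ext h0.2)
  · have h0' : (u.1, (u.2 : Fˣ)) = (v.1, (v.2 : Fˣ)) := h0
    rw [Prod.ext_iff] at h0'
    exact Prod.ext h0'.1 (Subtype.ext h0'.2)

theorem gr_edges (hdeg : Module.finrank F K = 2) (h2 : ∀ x : K, x + x = 0) (T : Finset Fˣ) :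
    2 * (gr F K T).edgeSet.ncard = Fintype.card (K × T) * (T.card * (Fintype.card F + 1)) := by
  have h3 : (gr F K T).edgeSet.ncard = (gr F K T).edgeFinset.card := by
    rw [← SimpleGraph.coe_edgeFinset, Set.ncard_coe_finset]
  rw [h3, ← SimpleGraph.sum_degrees_eq_twice_card_edges]
  have hd : ∀ u : K × T, (gr F K T).degree u = T.card * (Fintype.card F + 1) := by
    intro u
    rw [← SimpleGraph.card_neighborFinset_eq_degree, SimpleGraph.neighborFinset_eq_filter]
    have h4 : ∀ v : K × T, (gr F K T).Adj u v ↔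
        Algebra.norm F (u.1 + v.1) = ((u.2 : Fˣ) : F) * ((v.2 : Fˣ) : F) := by
      intro v
      refine ⟨fun h => h.2, fun h => ⟨?_, h⟩⟩
      rintro rfl
      rw [h2, Algebra.norm_zero] at h
      exact (mul_ne_zero (u.2 : Fˣ).ne_zero (u.2 : Fˣ).ne_zero) h.symm
    rw [filter_congr fun v _ => h4 v, card_filter, Fintype.sum_prod_type_right]
    have h5 : ∀ b : T, (∑ Y : K, if Algebra.norm F (u.1 + Y) =
        ((u.2 : Fˣ) : F) * ((b : Fˣ) : F) then 1 else 0) = Fintype.card F + 1 := by
      intro b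
      rw [← fiber_card F K hdeg ((u.2 : Fˣ) * (b : Fˣ)), card_filter]
      refine Fintype.sum_equiv (Equiv.addLeft u.1) _ _ fun Y => ?_
      simp only [Equiv.coe_addLeft, Units.val_mul]
      congr!
    rw [sum_congr rfl fun b _ => h5 b, sum_const, smul_eq_mul, card_univ, Fintype.card_coe]
  rw [sum_congr rfl fun u _ => hd u, sum_const, card_univ, smul_eq_mul]

/-- the translations -/
def tr (T : Finset Fˣ) : Multiplicative K →* Equiv.Perm (K × T) where
  toFun c := (Equiv.addLeft (Multiplicative.toAdd c)).prodCongr (Equiv.refl _)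
  map_one' := by
    ext u <;> simp
  map_mul' c d := by
    ext u <;> simp [add_assoc]

omit [Fintype F] [Fintype K] [Algebra F K] in
theorem tr_apply (T : Finset Fˣ) (c : Multiplicative K) (u : K × T) :
    tr F K T c u = (Multiplicative.toAdd c + u.1, u.2) := rfl

theorem card_orbits (T : Finset Fˣ) :
    Nat.card (MulAction.orbitRel.Quotient (tr F K T).range (K × T)) = T.card := by
  have e : MulAction.orbitRel.Quotient (tr F K T).range (K × T) ≃ T := by
    refine Equiv.ofBijective (Quotient.lift (fun u : K × T => u.2) ?_) ⟨?_, ?_⟩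
    · rintro u v ⟨⟨g, c, rfl⟩, h⟩
      have h' : tr F K T c v = u := h
      rw [← h']
      rfl
    · rintro ⟨u⟩ ⟨v⟩ h
      have h' : u.2 = v.2 := h
      refine Quotient.sound ⟨⟨tr F K T (Multiplicative.ofAdd (u.1 - v.1)), _, rfl⟩, ?_⟩
      show tr F K T (Multiplicative.ofAdd (u.1 - v.1)) v = u
      rw [tr_apply]
      exact Prod.ext (by simp) h'.symm
    · intro b
      exact ⟨Quotient.mk'' (0, b), rfl⟩
  rw [Nat.card_congr e, Nat.card_eq_fintype_card, Fintype.card_coe]

end fib

/-- the groups of automorphisms -/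
theorem sharp (m τ : ℕ) (hm : 1 ≤ m) (hτ : τ < 2 ^ m) :
    ∃ (V : Type) (_ : Finite V) (X : SimpleGraph V) (G : Subgroup (Equiv.Perm V)),
      (∀ g ∈ G, g * g = 1) ∧ (∀ g ∈ G, ∀ u v, X.Adj u v → X.Adj (g u) (g v)) ∧
      Nat.card V = τ * 4 ^ m ∧ Nat.card (MulAction.orbitRel.Quotient G V) = τ ∧
      (completeBipartiteGraph (Fin 3) (Fin 3)).Free X ∧
      2 * X.edgeSet.ncard = Nat.card V * (τ * (2 ^ m + 1)) := by
  have hm0 : m ≠ 0 := by omega
  let F := GaloisField 2 m
  have hF : Nat.card F = 2 ^ m := GaloisField.card 2 m hm0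
  let K := FiniteField.Extension F 2 2
  have hK : Nat.card K = Nat.card F ^ 2 := FiniteField.natCard_extension F 2 2
  have hdeg : Module.finrank F K = 2 := FiniteField.finrank_extension F 2 2
  have hchar : ∀ x : K, x + x = 0 := by
    intro x
    have h1 : (2 : ZMod 2) = 0 := rfl
    have h3 : (2 : K) = 0 := by
      rw [← map_ofNat (algebraMap (ZMod 2) K) 2]
      exact (congrArg (algebraMap (ZMod 2) K) h1).trans (map_zero _)
    rw [← two_mul, h3, zero_mul]
  let _ : Fintype F := Fintype.ofFinite F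
  let _ : Fintype K := Fintype.ofFinite K
  have hFf : Fintype.card F = 2 ^ m := by rw [← Nat.card_eq_fintype_card, hF]
  have hT : τ ≤ (univ : Finset Fˣ).card := by
    rw [card_univ, Fintype.card_units, hFf]
    omega
  obtain ⟨T, -, hTc⟩ := exists_subset_card_eq hT
  refine ⟨K × T, inferInstance, gr F K T, (tr F K T).range, ?_, ?_, ?_, ?_, ?_, ?_⟩
  · rintro g ⟨c, rfl⟩
    rw [← map_mul]
    have : c * c = 1 := by
      apply Multiplicative.toAdd.injective
      rw [toAdd_mul, hchar]
      rfl
    rw [this, map_one]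
  · rintro g ⟨c, rfl⟩ u v h
    refine ⟨fun h0 => h.1 ((tr F K T c).injective h0), ?_⟩
    rw [tr_apply, tr_apply]
    simp only
    have : Multiplicative.toAdd c + u.1 + (Multiplicative.toAdd c + v.1) = u.1 + v.1 := by
      have := hchar (Multiplicative.toAdd c)
      calc _ = (Multiplicative.toAdd c + Multiplicative.toAdd c) + (u.1 + v.1) := by ring
        _ = _ := by rw [this, zero_add]
    rw [this]
    exact h.2
  · rw [Nat.card_prod, hK, hF, Nat.card_eq_fintype_card (α := T), Fintype.card_coe, hTc,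
      ← pow_mul, mul_comm m 2, pow_mul, mul_comm]
    norm_num
  · rw [card_orbits, hTc]
  · exact gr_free F K hdeg T
  · rw [gr_edges F K hdeg hchar T, hTc, hFf, Nat.card_eq_fintype_card]

end Pool.Agent.W5h11.Cube
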