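import Pool.Agent.W5h11.Cube.Core

/-!
# The upper bound for relations without large complete bipartite subgraphs
-/

set_option autoImplicit false

namespace Pool.Agent.W5h11.Cube

open Finset
open scoped Classical

variable {E V : Type*} [Group E] [Fintype E] [Fintype V] [MulAction E V]

/-- the proportion of the group elements that fix `x`, i.e. `1 / |orbit of x|` -/
noncomputable def p (E : Type*) {V : Type*} [Group E] [Fintype E] [MulAction E V] (x : V) : ℝ :=
  ((univ.filter fun g : E => g • x = x).card : ℝ) / Fintype.card E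

/-- the points `h x`, `h ∈ H` -/
noncomputable def orb (H : Finset E) (x : V) : Finset V := H.image fun h => h • x

omit [Fintype E] [Fintype V] in
theorem mem_orb {H : Finset E} {x z : V} : z ∈ orb H x ↔ ∃ h ∈ H, h • x = z := by
  simp [orb]

omit [Fintype V] in
theorem card_smul_eq_le (x z : V) :
    (univ.filter fun g : E => g • x = z).card ≤ (univ.filter fun g : E => g • x = x).card := by
  by_cases h : ∃ g₀ : E, g₀ • x = z
  · obtain ⟨g₀, rfl⟩ := h
    refine card_le_card_of_injOn (fun g => g₀⁻¹ * g) (fun g hg => ?_)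
      (fun a _ b _ hab => mul_left_cancel hab)
    simp only [coe_filter, mem_univ, true_and, Set.mem_ofPred_eq] at hg ⊢
    rw [mul_smul, hg, inv_smul_smul]
  · push Not at h
    rw [filter_false_of_mem fun g _ => h g]
    simp

omit [Fintype V] in
theorem card_smul_mem_le (x : V) (A : Finset V) :
    ((univ.filter fun g : E => g • x ∈ A).card : ℝ) / Fintype.card E ≤ A.card * p E x := by
  have h := card_le_mul_card_image_of_maps_to (s := univ.filter fun g : E => g • x ∈ A)
    (t := A) (f := fun g => g • x) (fun g hg => (mem_filter.1 hg).2)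
    ((univ.filter fun g : E => g • x = x).card) (fun z _ => by
      refine le_trans (card_le_card fun g hg => ?_) (card_smul_eq_le x z)
      simp only [mem_filter, mem_univ, true_and] at hg ⊢
      exact hg.2)
  have h2 : ((univ.filter fun g : E => g • x ∈ A).card : ℝ) ≤
      ((univ.filter fun g : E => g • x = x).card : ℝ) * A.card := by exact_mod_cast h
  unfold p
  rw [← mul_div_assoc]
  refine div_le_div_of_nonneg_right ?_ (card_pos' (E := E)).le
  linarith

/-- the pairs for which `g` adds nothing to the orbit -/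
def Deg (H : Finset E) (g : E) (x y : V) : Prop := g • x ∈ orb H x ∨ g • y ∈ orb H y

/-- the data of the induction -/
structure Full (a : ℕ) (H : Finset E) (R : V → V → Prop) : Prop where
  one : (1 : E) ∈ H
  mul : ∀ g ∈ H, ∀ h ∈ H, g * h ∈ H
  inv : ∀ (g : E) x y, R x y → R (g • x) (g • y)
  full : ∀ x y, R x y → ∀ h ∈ H, R x (h • y)
  cardl : ∀ x y, R x y → (orb H x).card = 2 ^ a
  cardr : ∀ x y, R x y → (orb H y).card = 2 ^ a

omit [Fintype E] [Fintype V] in
theorem orb_smul (hcomm : ∀ a b : E, a * b = b * a) (H : Finset E) (g k : E) (x : V) :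
    g • (k • x) ∈ orb H (k • x) ↔ g • x ∈ orb H x := by
  rw [mem_orb, mem_orb]
  refine ⟨?_, ?_⟩
  · rintro ⟨h, hh, he⟩
    refine ⟨h, hh, ?_⟩
    rw [← mul_smul, ← mul_smul, hcomm h, hcomm g, mul_smul, mul_smul] at he
    exact smul_left_cancel k he
  · rintro ⟨h, hh, he⟩
    refine ⟨h, hh, ?_⟩
    rw [← mul_smul, ← mul_smul, hcomm h, hcomm g, mul_smul, mul_smul, he]

omit [Fintype E] [Fintype V] in
theorem Full.step (h2 : ∀ g : E, g * g = 1) (hcomm : ∀ a b : E, a * b = b * a) {a : ℕ}
    {H : Finset E} {R : V → V → Prop} (hF : Full a H R) (g : E) :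
    Full (a + 1) (H ∪ H.image fun h => g * h)
      (fun x y => (R x y ∧ R x (g • y)) ∧ ¬ Deg H g x y) := by
  have hinv : ∀ h : E, h⁻¹ = h := fun h => inv_eq_of_mul_eq_one_left (h2 h)
  have hcard : ∀ x : V, (orb H x).card = 2 ^ a → g • x ∉ orb H x →
      (orb (H ∪ H.image fun h => g * h) x).card = 2 ^ (a + 1) := by
    intro x hx hgx
    have h1 : orb (H ∪ H.image fun h => g * h) x = orb H x ∪ (orb H x).image fun z => g • z := by
      unfold orb
      rw [image_union, image_image, image_image]
      congr 1
      refine image_congr fun h _ => ?_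
      simp [mul_smul]
    have h3 : Disjoint (orb H x) ((orb H x).image fun z => g • z) := by
      rw [disjoint_left]
      intro z hz hz'
      obtain ⟨z', hz'', hz3⟩ := mem_image.1 hz'
      obtain ⟨h, hh, rfl⟩ := mem_orb.1 hz
      obtain ⟨h', hh', rfl⟩ := mem_orb.1 hz''
      apply hgx
      rw [mem_orb]
      refine ⟨h' * h, hF.mul _ hh' _ hh, ?_⟩
      have h4 : g • h' • x = h' • g • x := by rw [← mul_smul, hcomm, mul_smul]
      rw [h4] at hz3
      rw [mul_smul, ← hz3, ← mul_smul, h2, one_smul]
    rw [h1, card_union_of_disjoint h3, card_image_of_injective _ (MulAction.injective g), hx]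
    ring
  have hg2 : ∀ y : V, g • g • y = y := fun y => by rw [← mul_smul, h2, one_smul]
  have hsw : ∀ (k l : E) (y : V), k • l • y = l • k • y := fun k l y => by
    rw [← mul_smul, hcomm, mul_smul]
  have hdeg : ∀ (k : E) (x y : V), Deg H g x (k • y) ↔ Deg H g x y := by
    intro k x y
    unfold Deg
    rw [orb_smul hcomm]
  have hdegl : ∀ (k : E) (x y : V), Deg H g (k • x) y ↔ Deg H g x y := by
    intro k x y
    unfold Deg
    rw [orb_smul hcomm]
  refine ⟨mem_union_left _ hF.one, ?_, ?_, ?_, ?_, ?_⟩
  · intro b hb c hc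
    rw [mem_union, mem_image] at hb hc ⊢
    rcases hb with hb | ⟨b', hb', rfl⟩ <;> rcases hc with hc | ⟨c', hc', rfl⟩
    · exact Or.inl (hF.mul _ hb _ hc)
    · refine Or.inr ⟨b * c', hF.mul _ hb _ hc', ?_⟩
      rw [← mul_assoc, ← mul_assoc, hcomm g b]
    · refine Or.inr ⟨b' * c, hF.mul _ hb' _ hc, ?_⟩
      rw [mul_assoc]
    · refine Or.inl ?_
      have : g * b' * (g * c') = b' * c' := by
        rw [hcomm g b', mul_assoc, ← mul_assoc g g c', h2, one_mul]
      rw [this]
      exact hF.mul _ hb' _ hc'
  · rintro k x y ⟨⟨h3, h4⟩, h5⟩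
    refine ⟨⟨hF.inv k _ _ h3, ?_⟩, ?_⟩
    · rw [hsw]
      exact hF.inv k _ _ h4
    · rwa [hdeg, hdegl]
  · rintro x y ⟨⟨h3, h4⟩, h5⟩ h hh
    refine ⟨?_, by rwa [hdeg]⟩
    rw [mem_union, mem_image] at hh
    rcases hh with hh | ⟨h', hh', rfl⟩
    · refine ⟨hF.full _ _ h3 h hh, ?_⟩
      rw [hsw]
      exact hF.full _ _ h4 h hh
    · rw [mul_smul, hg2]
      refine ⟨?_, hF.full _ _ h3 h' hh'⟩
      rw [hsw]
      exact hF.full _ _ h4 h' hh'
  · rintro x y ⟨⟨h3, h4⟩, h5⟩
    exact hcard x (hF.cardl _ _ h3) fun h => h5 (Or.inl h)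
  · rintro x y ⟨⟨h3, h4⟩, h5⟩
    exact hcard y (hF.cardr _ _ h3) fun h => h5 (Or.inr h)

/-- there is no complete bipartite subgraph with parts of size `m` -/
def NoBig (m : ℕ) (R : V → V → Prop) : Prop :=
  ∀ A B : Finset V, A.card = m → B.card = m → ¬ ∀ x ∈ A, ∀ y ∈ B, R x y

theorem T_upper (h2 : ∀ g : E, g * g = 1) (hcomm : ∀ a b : E, a * b = b * a) (j : ℕ) (a : ℕ)
    (H : Finset E) (R₀ R : V → V → Prop) (hR : ∀ x y, R x y → R₀ x y) (hF : Full a H R)
    (hN : NoBig (2 ^ (a + j)) R₀) (w : V → V → ℝ) (hw : ∀ x y, 0 ≤ w x y) :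
    T E j w R ≤ (2 ^ j - 1) * T E (j - 1)
      (fun x y => 2 ^ a * ((p E x + p E y) * w x y)) R := by
  have hc := card_pos' (E := E)
  have hp : ∀ x : V, 0 ≤ p E x := fun x => by unfold p; positivity
  induction j generalizing a H R with
  | zero =>
    have h0 : ∀ x y, ¬ R x y := by
      intro x y hxy
      refine hN (orb H x) (orb H y) (hF.cardl x y hxy) (hF.cardr x y hxy) ?_
      intro x' hx' y' hy'
      obtain ⟨h, hh, rfl⟩ := mem_orb.1 hx'
      obtain ⟨h', hh', rfl⟩ := mem_orb.1 hy'
      have h3 := hF.inv h _ _ (hF.full _ _ hxy (h * h') (hF.mul _ hh _ hh'))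
      rw [← mul_smul, ← mul_assoc, h2, one_mul] at h3
      exact hR _ _ h3
    have : T E 0 w R = 0 := by
      simp [T, h0]
    rw [this]
    simp
  | succ j ih =>
    set w' : V → V → ℝ := fun x y => 2 ^ a * ((p E x + p E y) * w x y) with hw'
    have hw0 : ∀ x y, 0 ≤ w' x y := fun x y => by
      have := hp x; have := hp y; have := hw x y
      simp only [hw']; positivity
    -- one direction
    have hstep : ∀ g : E, T E j w (fun x y => R x y ∧ R x (g • y)) ≤
        T E j (fun x y => if Deg H g x y then w x y else 0) R +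
        (2 ^ j - 1) * 2 * T E (j - 1) w' (fun x y => R x y ∧ R x (g • y)) := by
      intro g
      have h1 : T E j w (fun x y => R x y ∧ R x (g • y)) =
          T E j (fun x y => if Deg H g x y then w x y else 0) (fun x y => R x y ∧ R x (g • y)) +
          T E j (fun x y => if ¬ Deg H g x y then w x y else 0)
            (fun x y => R x y ∧ R x (g • y)) := by
        rw [← T_add]
        congr 1
        funext x y
        by_cases h : Deg H g x y <;> simp [h]
      rw [h1]
      refine add_le_add ?_ ?_
      · refine T_mono _ _ (fun x y => ?_) fun x y hxy => hxy.1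
        split_ifs
        · exact hw x y
        · exact le_rfl
      · have h5 := T_le_and (E := E) j w hw (fun x y => R x y ∧ R x (g • y))
          (fun x y => ¬ Deg H g x y) (fun k x y hxy => by
            unfold Deg at hxy ⊢
            rwa [orb_smul hcomm])
        refine (le_of_eq ?_).trans (h5.trans ?_)
        · congr!
        · have hN' : NoBig (2 ^ (a + 1 + j)) R₀ := by
            rwa [show a + 1 + j = a + (j + 1) by ring]
          refine (ih (a + 1) _ _ (fun x y hxy => hR _ _ hxy.1.1) (hF.step h2 hcomm g) hN').trans ?_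
          rw [mul_assoc]
          refine mul_le_mul_of_nonneg_left ?_ ?_
          · rw [← T_mul]
            have h4 : ∀ x y, 0 ≤ 2 * w' x y := fun x y => by
              have := hw0 x y; linarith
            refine le_trans (T_mono_w _ _ (fun x y => 2 * w' x y) fun x y _ => ?_)
              (T_mono _ _ h4 fun x y hxy => hxy.1)
            refine le_of_eq ?_
            simp only [hw']
            ring
          · have : (1 : ℝ) ≤ 2 ^ j := one_le_pow₀ (by norm_num)
            linarith
    -- the sum of the degenerate parts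
    have hdeg : (∑ g : E, T E j (fun x y => if Deg H g x y then w x y else 0) R) /
        Fintype.card E ≤ T E j w' R := by
      rw [← T_sum, div_eq_inv_mul, ← T_mul]
      refine T_mono_w _ _ _ fun x y hxy => ?_
      rw [← Finset.sum_filter, sum_const, nsmul_eq_mul]
      have h3 : ((univ.filter fun g : E => Deg H g x y).card : ℝ) ≤
          (univ.filter fun g : E => g • x ∈ orb H x).card +
          (univ.filter fun g : E => g • y ∈ orb H y).card := by
        have : (univ.filter fun g : E => Deg H g x y) ⊆
            (univ.filter fun g : E => g • x ∈ orb H x) ∪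
            (univ.filter fun g : E => g • y ∈ orb H y) := by
          intro g hg
          simp only [mem_filter, mem_univ, true_and, mem_union] at hg ⊢
          exact hg
        exact_mod_cast (card_le_card this).trans (card_union_le _ _)
      have h4 := card_smul_mem_le (E := E) x (orb H x)
      have h5 := card_smul_mem_le (E := E) y (orb H y)
      rw [hF.cardl x y hxy, div_le_iff₀ hc] at h4
      rw [hF.cardr x y hxy, div_le_iff₀ hc] at h5
      push_cast at h4 h5
      rw [← mul_assoc, inv_mul_eq_div]
      simp only [hw']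
      rw [← mul_assoc]
      refine mul_le_mul_of_nonneg_right ?_ (hw x y)
      rw [div_le_iff₀ hc]
      nlinarith
    -- total
    rw [T]
    have h6 : (∑ g : E, T E j w (fun x y => R x y ∧ R x (g • y))) / Fintype.card E ≤
        (∑ g : E, T E j (fun x y => if Deg H g x y then w x y else 0) R) / Fintype.card E +
        (2 ^ j - 1) * 2 * ((∑ g : E, T E (j - 1) w' (fun x y => R x y ∧ R x (g • y))) /
          Fintype.card E) := by
      rw [← mul_div_assoc, ← add_div, mul_sum, ← sum_add_distrib]
      exact div_le_div_of_nonneg_right (sum_le_sum fun g _ => hstep g) hc.le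
    refine h6.trans ?_
    have h7 : (2 ^ j - 1) * 2 * ((∑ g : E, T E (j - 1) w' (fun x y => R x y ∧ R x (g • y))) /
          Fintype.card E) = (2 ^ j - 1) * 2 * T E j w' R := by
      rcases j with _ | j
      · simp
      · rfl
    rw [h7, Nat.add_sub_cancel]
    have h8 := hdeg
    have h9 := T_nonneg (E := E) j w' hw0 R
    have : ((2 : ℝ) ^ (j + 1) - 1) = (2 ^ j - 1) * 2 + 1 := by ring
    rw [this, add_mul, one_mul]
    linarith

end Pool.Agent.W5h11.Cube
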